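import Pool.Agent.Helper92.BO.GoalsC

/-!
# MP_481f43_lc, packet BO-PRC: translation to sets of natural numbers
-/

namespace Pool.Agent.Helper79.BO

open Pool.Agent.Helper92.BO Finset

open Classical in
/-- The set of the elements of `Fin n` in `I`. -/
noncomputable def toF (n : ℕ) (I : Finset ℕ) : Finset (Fin n) :=
  univ.filter fun i : Fin n => (i : ℕ) ∈ I

theorem mem_toF {n : ℕ} {I : Finset ℕ} {i : Fin n} : i ∈ toF n I ↔ (i : ℕ) ∈ I := by
  classical
  unfold toF
  simp

theorem pG_eq (G : SimpleGraph ℕ) (n : ℕ) (I : Finset ℕ) : pG G n I = PV G n (toF n I) := rfl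

theorem prc (hR : PvrStmt) (hZ : PvzStmt) : PrcStmt := by
  classical
  intro G n
  obtain ⟨h1, h2, h3⟩ := hZ G n
  refine ⟨?_, fun I => by rw [pG_eq]; exact h2 _, ?_, ?_⟩
  · rw [pG_eq]
    have : toF n ∅ = ∅ := by
      ext i
      simp [mem_toF]
    rw [this]
    exact h1
  · rintro I hI ⟨i, hi, j, hj, hij⟩
    have hin : i < n := mem_range.1 (hI hi)
    have hjn : j < n := mem_range.1 (hI hj)
    rw [pG_eq]
    exact h3 (toF n I) ⟨i, hin⟩ ⟨j, hjn⟩ (mem_toF.2 hi) (mem_toF.2 hj) hij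
  · intro I hI hne hind
    have hne' : (toF n I).Nonempty := by
      obtain ⟨i, hi⟩ := hne
      exact ⟨⟨i, mem_range.1 (hI hi)⟩, mem_toF.2 hi⟩
    have h := hR G n (toF n I) hne' fun i hi j hj => hind i (mem_toF.1 hi) j (mem_toF.1 hj)
    have hcard : (cnF G n (toF n I)).card = (cn G n I).card := by
      refine card_bij (fun i _ => (i : ℕ)) ?_ ?_ ?_
      · intro w hw
        unfold cnF at hw
        unfold cn
        rw [mem_filter] at hw ⊢
        refine ⟨mem_range.2 w.2, ?_⟩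
        rcases hw.2 with hw | ⟨v, hv, hvw⟩
        · exact Or.inl (mem_toF.1 hw)
        · exact Or.inr ⟨v, mem_toF.1 hv, hvw⟩
      · intro a _ b _ hab
        exact Fin.ext hab
      · intro w hw
        unfold cn at hw
        rw [mem_filter] at hw
        have hwn : w < n := mem_range.1 hw.1
        refine ⟨⟨w, hwn⟩, ?_, rfl⟩
        unfold cnF
        rw [mem_filter]
        refine ⟨mem_univ _, ?_⟩
        rcases hw.2 with hw | ⟨v, hv, hvw⟩
        · exact Or.inl (mem_toF.2 hw)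
        · exact Or.inr ⟨⟨v, mem_range.1 (hI hv)⟩, mem_toF.2 hv, hvw⟩
    rw [hcard] at h
    rw [pG_eq, h]
    refine sum_bij (fun i _ => (i : ℕ)) (fun i hi => mem_toF.1 hi) (fun a _ b _ hab => Fin.ext hab)
      (fun i hi => ⟨⟨i, mem_range.1 (hI hi)⟩, mem_toF.2 hi, rfl⟩) ?_
    intro i hi
    rw [pG_eq]
    congr 1
    ext w
    rw [mem_erase, mem_toF, mem_toF, mem_erase]
    constructor
    · rintro ⟨ha, hb⟩
      exact ⟨fun h => ha (Fin.ext h), hb⟩
    · rintro ⟨ha, hb⟩
      exact ⟨fun h => ha (congrArg _ h), hb⟩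

end Pool.Agent.Helper79.BO
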